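import Pool.Agent.helper36.BP.SpecE

/-!
# Row NDG (MP_ad8ced_nt)
-/

set_option autoImplicit false

open Finset
open Pool.Agent.FI Pool.Agent.HK

noncomputable section

namespace Pool.Agent.BP

private theorem NDG_one (ρ X Y : ℝ) (h0 : 0 < ρ) (h1 : ρ ≤ 1 / 2) (hX : 0 < X) (hY : 0 < Y)
    (h : 2 * ρ < Real.log (Y / X)) : X ≤ (1 - ρ) * Y := by
  have h2 : Real.exp (2 * ρ) < Y / X := (Real.lt_log_iff_exp_lt (div_pos hY hX)).mp h
  have h3 : 2 * ρ + 1 ≤ Real.exp (2 * ρ) := Real.add_one_le_exp _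
  have h4 : 2 * ρ + 1 < Y / X := h3.trans_lt h2
  rw [lt_div_iff₀ hX] at h4
  have h5 : (1 - ρ) * ((2 * ρ + 1) * X) ≤ (1 - ρ) * Y :=
    mul_le_mul_of_nonneg_left h4.le (by linarith)
  have h6 : X ≤ (1 - ρ) * ((2 * ρ + 1) * X) := by
    have h7 : 0 ≤ ρ * (1 - 2 * ρ) := mul_nonneg h0.le (by linarith)
    nlinarith [mul_nonneg h7 hX.le]
  exact h6.trans h5

private theorem NDG_two (ρ X Y : ℝ) (h0 : 0 < ρ) (h1 : ρ ≤ 1 / 2) (hX : 0 < X) (hY : 0 < Y)
    (h : 2 * ρ < |Real.log (Y / X)|) : ρ * X ≤ |X - Y| ∧ ρ * Y ≤ |X - Y| := by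
  rcases lt_abs.mp h with h2 | h2
  · have h3 := NDG_one ρ X Y h0 h1 hX hY h2
    have h4 : 0 ≤ ρ * Y := by positivity
    have h5 : X ≤ Y := by linarith
    rw [abs_sub_comm, abs_of_nonneg (by linarith)]
    have h6 : ρ * X ≤ ρ * Y := mul_le_mul_of_nonneg_left h5 h0.le
    constructor <;> linarith
  · have h2' : 2 * ρ < Real.log (X / Y) := by
      have h3 : X / Y = (Y / X)⁻¹ := by rw [inv_div]
      rw [h3, Real.log_inv]
      exact h2
    have h3 := NDG_one ρ Y X h0 h1 hY hX h2'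
    have h4 : 0 ≤ ρ * X := by positivity
    have h5 : Y ≤ X := by linarith
    rw [abs_of_nonneg (by linarith)]
    have h6 : ρ * Y ≤ ρ * X := mul_le_mul_of_nonneg_left h5 h0.le
    constructor <;> linarith

theorem NDG : NDG_stmt := by
  intro l ρ N α β p q hρ hρ2 hN hp1 hp2 hq1 hq2 hj
  refine ⟨hp1, hp2, hq1, hq2, ?_⟩
  intro j hjm
  have hP : 0 < |p| := hN.trans_le hp1
  have hQ : 0 < |q| := hN.trans_le hq1
  have hj1 : 1 ≤ j := (mem_Icc.mp hjm).1
  have hPj : |p| ^ j ≤ (50 * N) ^ j := pow_le_pow_left₀ (abs_nonneg _) hp2 j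
  have hQj : |q| ^ j ≤ (50 * N) ^ j := pow_le_pow_left₀ (abs_nonneg _) hq2 j
  have hPp : 0 < |p| ^ j := pow_pos hP j
  have hQp : 0 < |q| ^ j := pow_pos hQ j
  have hT : 0 < (50 * N) ^ j := by positivity
  have hX : |α| / (50 * N) ^ j ≤ |α| / |p| ^ j := div_le_div_of_nonneg_left (abs_nonneg _) hPp hPj
  have hY : |β| / (50 * N) ^ j ≤ |β| / |q| ^ j := div_le_div_of_nonneg_left (abs_nonneg _) hQp hQj
  have eX : |α / p ^ j| = |α| / |p| ^ j := by rw [abs_div, abs_pow]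
  have eY : |β / q ^ j| = |β| / |q| ^ j := by rw [abs_div, abs_pow]
  have hρ1 : ρ ≤ 1 := by linarith
  have hgoal : ∀ Z : ℝ, ρ * (|α| / |p| ^ j) ≤ Z → ρ * (|β| / |q| ^ j) ≤ Z →
      ρ * max |α| |β| / (50 * N) ^ j ≤ Z := by
    intro Z h1 h2
    rcases max_choice |α| |β| with h | h
    · rw [h, mul_div_assoc]
      exact (mul_le_mul_of_nonneg_left hX hρ.le).trans h1
    · rw [h, mul_div_assoc]
      exact (mul_le_mul_of_nonneg_left hY hρ.le).trans h2
  rcases eq_or_ne α 0 with hα | hα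
  · subst hα
    have h1 : |0 / p ^ j + β / q ^ j| = |β| / |q| ^ j := by rw [zero_div, zero_add, eY]
    rw [h1]
    have h2 : 0 ≤ |β| / |q| ^ j := by positivity
    refine hgoal _ ?_ ?_
    · rw [abs_zero, zero_div, mul_zero]
      exact h2
    · exact mul_le_of_le_one_left h2 hρ1
  rcases eq_or_ne β 0 with hβ | hβ
  · subst hβ
    have h1 : |α / p ^ j + 0 / q ^ j| = |α| / |p| ^ j := by rw [zero_div, add_zero, eX]
    rw [h1]
    have h2 : 0 ≤ |α| / |p| ^ j := by positivity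
    refine hgoal _ ?_ ?_
    · exact mul_le_of_le_one_left h2 hρ1
    · rw [abs_zero, zero_div, mul_zero]
      exact h2
  have hA : 0 < |α| := abs_pos.mpr hα
  have hB : 0 < |β| := abs_pos.mpr hβ
  have pX : 0 < |α| / |p| ^ j := div_pos hA hPp
  have pY : 0 < |β| / |q| ^ j := div_pos hB hQp
  have hlog : Real.log ((|β| / |q| ^ j) / (|α| / |p| ^ j)) =
      j * (Real.log (|p| / |q|) - Real.log (|α| / |β|) / j) := by
    rw [Real.log_div pY.ne' pX.ne', Real.log_div hB.ne' hQp.ne', Real.log_div hA.ne' hPp.ne',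
      Real.log_pow, Real.log_pow, Real.log_div hP.ne' hQ.ne', Real.log_div hA.ne' hB.ne']
    have hj0 : (j : ℝ) ≠ 0 := by
      have : 0 < j := hj1
      positivity
    field_simp
    ring
  have hbig : 2 * ρ < |Real.log ((|β| / |q| ^ j) / (|α| / |p| ^ j))| := by
    rw [hlog, abs_mul, Nat.abs_cast]
    have h1 := hj j hjm
    have h2 : (1 : ℝ) ≤ j := by exact_mod_cast hj1
    have h3 : 0 ≤ |Real.log (|p| / |q|) - Real.log (|α| / |β|) / j| := abs_nonneg _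
    nlinarith
  obtain ⟨k1, k2⟩ := NDG_two ρ _ _ hρ hρ2 pX pY hbig
  have hrev : |(|α| / |p| ^ j) - (|β| / |q| ^ j)| ≤ |α / p ^ j + β / q ^ j| := by
    rw [← eX, ← eY]
    have h1 := abs_abs_sub_abs_le (α / p ^ j) (-(β / q ^ j))
    rw [abs_neg, sub_neg_eq_add] at h1
    exact h1
  exact hgoal _ (k1.trans hrev) (k2.trans hrev)

end Pool.Agent.BP
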