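import Pool.Agent.helper36.BP.SpecE

/-!
# Row VTT (MP_ad8ced_nt)
-/

set_option autoImplicit false

open Finset
open Pool.Agent.FI Pool.Agent.HK
open Pool.Agent.CH (nit)

noncomputable section

namespace Pool.Agent.BP

private theorem VTT_add (F G : ℤ × ℤ → ℂ) (B : ℕ) :
    Va (fun z => F z + G z) B ≤ Va F B + Va G B := by
  unfold Va
  rw [← Finset.sum_add_distrib]
  apply Finset.sum_le_sum
  intro z _
  have h1 : ‖(F (z.1 + 1, z.2) + G (z.1 + 1, z.2)) - (F z + G z)‖ ≤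
      ‖F (z.1 + 1, z.2) - F z‖ + ‖G (z.1 + 1, z.2) - G z‖ := by
    rw [add_sub_add_comm]; exact norm_add_le _ _
  have h2 : ‖(F (z.1, z.2 + 1) + G (z.1, z.2 + 1)) - (F z + G z)‖ ≤
      ‖F (z.1, z.2 + 1) - F z‖ + ‖G (z.1, z.2 + 1) - G z‖ := by
    rw [add_sub_add_comm]; exact norm_add_le _ _
  linarith

private theorem VTT_log (A B : ℝ) (hA : 0 < A) (hB : 0 < B) (h1 : A ≤ 7 * B) (h2 : B ≤ 7 * A) :
    |Real.log (A / B)| ≤ 2 := by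
  rw [Real.log_div hA.ne' hB.ne', abs_le]
  have h7 : Real.log 7 ≤ 2 := by
    rw [Real.log_le_iff_le_exp (by norm_num)]
    have := Real.exp_one_gt_d9
    have h : Real.exp 2 = Real.exp 1 * Real.exp 1 := by rw [← Real.exp_add]; norm_num
    rw [h]; nlinarith
  have e1 : Real.log A ≤ Real.log 7 + Real.log B := by
    rw [← Real.log_mul (by norm_num) hB.ne']; exact Real.log_le_log hA h1
  have e2 : Real.log B ≤ Real.log 7 + Real.log A := by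
    rw [← Real.log_mul (by norm_num) hA.ne']; exact Real.log_le_log hB h2
  constructor <;> linarith

private theorem VTT_s8 : (28 : ℝ) / 10 < √8 ∧ √8 < 29 / 10 := by
  constructor
  · apply Real.lt_sqrt_of_sq_lt; norm_num
  · rw [Real.sqrt_lt' (by norm_num)]; norm_num

private theorem VTT_y1 (a l : ℤ) (h : 4 * |l| < a) : 0 < (a : ℝ) + l * √8 ∧ 0 < (a : ℝ) - l * √8 ∧
    yy (a, l) = Real.log (((a : ℝ) + l * √8) / ((a : ℝ) - l * √8)) ∧ |yy (a, l)| ≤ 2 := by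
  obtain ⟨s1, s2⟩ := VTT_s8
  have h' : 4 * |(l : ℝ)| < a := by exact_mod_cast h
  have ha := abs_nonneg (l : ℝ)
  have h3 : |(l : ℝ) * √8| ≤ 3 * |(l : ℝ)| := by
    rw [abs_mul, abs_of_pos (show (0 : ℝ) < √8 by linarith)]
    nlinarith
  rw [abs_le] at h3
  have p1 : 0 < (a : ℝ) + l * √8 := by linarith [h3.1]
  have p2 : 0 < (a : ℝ) - l * √8 := by linarith [h3.2]
  have e : yy (a, l) = Real.log (((a : ℝ) + l * √8) / ((a : ℝ) - l * √8)) := by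
    unfold yy
    rw [abs_of_pos p1, abs_of_pos p2]
  refine ⟨p1, p2, e, ?_⟩
  rw [e]
  apply VTT_log _ _ p1 p2
  · linarith [h3.2]
  · linarith [h3.1]

private theorem VTT_y2 (a l : ℤ) (h : |a| < 2 * l) : 0 < (l : ℝ) * √8 + a ∧ 0 < (l : ℝ) * √8 - a ∧
    yy (a, l) = Real.log (((l : ℝ) * √8 + a) / ((l : ℝ) * √8 - a)) ∧ |yy (a, l)| ≤ 2 := by
  obtain ⟨s1, s2⟩ := VTT_s8
  have h' : |(a : ℝ)| < 2 * l := by exact_mod_cast h
  have ha := abs_nonneg (a : ℝ)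
  have h3 : (28 / 10 : ℝ) * l ≤ l * √8 := by
    have : (0 : ℝ) < l := by linarith
    nlinarith
  have h4 := abs_le.1 (le_refl |(a : ℝ)|)
  have p1 : 0 < (l : ℝ) * √8 + a := by linarith [h4.1]
  have p2 : 0 < (l : ℝ) * √8 - a := by linarith [h4.2]
  have e : yy (a, l) = Real.log (((l : ℝ) * √8 + a) / ((l : ℝ) * √8 - a)) := by
    unfold yy
    rw [show ((a, l) : ℤ × ℤ).1 = a from rfl, show ((a, l) : ℤ × ℤ).2 = l from rfl,
      abs_sub_comm (a : ℝ) (l * √8), add_comm (a : ℝ) (l * √8), abs_of_pos p1, abs_of_pos p2]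
  refine ⟨p1, p2, e, ?_⟩
  rw [e]
  apply VTT_log _ _ p1 p2
  · linarith [h4.2]
  · linarith [h4.1]

private theorem VTT_m1 (a l a' l' : ℤ) (h : 4 * |l| < a) (h' : 4 * |l'| < a') (hc : l * a' ≤ l' * a) :
    yy (a, l) ≤ yy (a', l') := by
  obtain ⟨p1, p2, e, _⟩ := VTT_y1 a l h
  obtain ⟨q1, q2, f, _⟩ := VTT_y1 a' l' h'
  rw [e, f]
  apply Real.log_le_log (div_pos p1 p2)
  rw [div_le_div_iff₀ p2 q2]
  have hc' : (l : ℝ) * a' ≤ l' * a := by exact_mod_cast hc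
  have hs : (0 : ℝ) ≤ √8 := Real.sqrt_nonneg _
  have := mul_le_mul_of_nonneg_right hc' hs
  nlinarith

private theorem VTT_m2 (a l a' l' : ℤ) (h : |a| < 2 * l) (h' : |a'| < 2 * l') (hc : a * l' ≤ a' * l) :
    yy (a, l) ≤ yy (a', l') := by
  obtain ⟨p1, p2, e, _⟩ := VTT_y2 a l h
  obtain ⟨q1, q2, f, _⟩ := VTT_y2 a' l' h'
  rw [e, f]
  apply Real.log_le_log (div_pos p1 p2)
  rw [div_le_div_iff₀ p2 q2]
  have hc' : (a : ℝ) * l' ≤ a' * l := by exact_mod_cast hc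
  have hs : (0 : ℝ) ≤ √8 := Real.sqrt_nonneg _
  have := mul_le_mul_of_nonneg_right hc' hs
  nlinarith

private theorem VTT_n1 (a l : ℤ) (y : ℕ) (h : 4 * |l| < a) :
    nn (a, l) ≤ y ↔ a ^ 2 - 8 * l ^ 2 ≤ y := by
  unfold nn N8
  have h0 := abs_nonneg l
  have h1 : (4 * |l|) ^ 2 < a ^ 2 := by
    apply pow_lt_pow_left₀ h (by positivity) (by norm_num)
  rw [mul_pow, sq_abs] at h1
  have h2 := sq_nonneg l
  simp only
  omega

private theorem VTT_n2 (a l : ℤ) (y : ℕ) (h : |a| < 2 * l) :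
    nn (a, l) ≤ y ↔ 8 * l ^ 2 - a ^ 2 ≤ y := by
  unfold nn N8
  have h0 := abs_nonneg a
  have h1 : |a| ^ 2 < (2 * l) ^ 2 := by
    apply pow_lt_pow_left₀ h (by positivity) (by norm_num)
  rw [mul_pow, sq_abs] at h1
  have h2 := sq_nonneg l
  simp only
  omega

private theorem VTT_r1 (a l : ℤ) (y : ℕ) (h : 4 * |l| < a) (hn : nn (a, l) ≤ y) :
    |a| ≤ (Nat.sqrt (2 * y) : ℤ) ∧ |l| ≤ (Nat.sqrt (2 * y) : ℤ) ∧ 0 < y := by
  rw [VTT_n1 a l y h] at hn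
  have h0 := abs_nonneg l
  have h1 : (4 * |l|) ^ 2 < a ^ 2 := by
    apply pow_lt_pow_left₀ h (by positivity) (by norm_num)
  rw [mul_pow, sq_abs] at h1
  have h2 := sq_nonneg l
  have ha : 0 < a := by omega
  have h3 : a.natAbs ≤ Nat.sqrt (2 * y) := by
    rw [Nat.le_sqrt']
    have : ((a.natAbs ^ 2 : ℕ) : ℤ) ≤ ((2 * y : ℕ) : ℤ) := by
      push_cast
      rw [sq_abs]
      omega
    exact_mod_cast this
  have h5 : |a| ≤ (Nat.sqrt (2 * y) : ℤ) := by rw [Int.abs_eq_natAbs]; exact_mod_cast h3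
  refine ⟨h5, ?_, ?_⟩
  · have : |l| ≤ |a| := by rw [abs_of_pos ha]; omega
    omega
  · have : 0 < a ^ 2 := by positivity
    omega

private theorem VTT_r2 (a l : ℤ) (y : ℕ) (h : |a| < 2 * l) (hn : nn (a, l) ≤ y) :
    |a| ≤ (Nat.sqrt (2 * y) : ℤ) ∧ |l| ≤ (Nat.sqrt (2 * y) : ℤ) ∧ 0 < y := by
  rw [VTT_n2 a l y h] at hn
  have h0 := abs_nonneg a
  have h1 : |a| ^ 2 < (2 * l) ^ 2 := by
    apply pow_lt_pow_left₀ h (by positivity) (by norm_num)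
  rw [mul_pow, sq_abs] at h1
  have h2 := sq_nonneg l
  have ha2 := sq_nonneg a
  have hl : 0 < l := by omega
  have hl2 : 0 < l ^ 2 := by positivity
  have h3 : a.natAbs ≤ Nat.sqrt (2 * y) := by
    rw [Nat.le_sqrt']
    have : ((a.natAbs ^ 2 : ℕ) : ℤ) ≤ ((2 * y : ℕ) : ℤ) := by
      push_cast
      rw [sq_abs]
      omega
    exact_mod_cast this
  have h4 : l.natAbs ≤ Nat.sqrt (2 * y) := by
    rw [Nat.le_sqrt']
    have : ((l.natAbs ^ 2 : ℕ) : ℤ) ≤ ((2 * y : ℕ) : ℤ) := by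
      push_cast
      rw [sq_abs]
      omega
    exact_mod_cast this
  refine ⟨?_, ?_, by omega⟩
  · rw [Int.abs_eq_natAbs]; exact_mod_cast h3
  · rw [Int.abs_eq_natAbs]; exact_mod_cast h4

open scoped Classical in
private def VTT_G (κ : ℝ) (g : ℤ × ℤ → ℝ) (s : ℂ) (P : ℤ × ℤ → Prop) (z : ℤ × ℤ) : ℂ :=
  if P z then s * Complex.exp (κ * g z * Complex.I) else 0

private theorem VTT_G1 (κ : ℝ) (g : ℤ × ℤ → ℝ) (s : ℂ) (hs : ‖s‖ ≤ 1) (P : ℤ × ℤ → Prop) (z : ℤ × ℤ) :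
    ‖VTT_G κ g s P z‖ ≤ 1 := by
  unfold VTT_G
  split_ifs
  · rw [norm_mul]
    have h1 : ‖Complex.exp (κ * g z * Complex.I)‖ = 1 := by
      have h2 : ((κ : ℂ) * (g z : ℂ)) = ((κ * g z : ℝ) : ℂ) := by push_cast; rfl
      rw [h2, Complex.norm_exp_ofReal_mul_I]
    rw [h1, mul_one]
    exact hs
  · rw [norm_zero]
    norm_num

private theorem VTT_prod (F G : ℤ × ℤ → ℂ) (hF : ∀ z, ‖F z‖ ≤ 1) (hG : ∀ z, ‖G z‖ ≤ 1) (B : ℕ) :
    Va (fun z => F z * G z) B ≤ Va F B + Va G B := by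
  have key : ∀ z w : ℤ × ℤ, ‖F w * G w - F z * G z‖ ≤ ‖F w - F z‖ + ‖G w - G z‖ := by
    intro z w
    have h1 : F w * G w - F z * G z = (F w - F z) * G w + F z * (G w - G z) := by ring
    rw [h1]
    refine (norm_add_le _ _).trans (add_le_add ?_ ?_)
    · rw [norm_mul]
      exact mul_le_of_le_one_right (norm_nonneg _) (hG w)
    · rw [norm_mul]
      exact mul_le_of_le_one_left (norm_nonneg _) (hF z)
  unfold Va
  rw [← Finset.sum_add_distrib]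
  apply Finset.sum_le_sum
  intro z _
  have h1 := key z (z.1 + 1, z.2)
  have h2 := key z (z.1, z.2 + 1)
  linarith

private theorem VTT_z1 (a l : ℤ) (h : 4 * |l| < a) : (nn (a, l) : ℤ) = a ^ 2 - 8 * l ^ 2 ∧ 0 < nn (a, l) := by
  unfold nn N8
  have h0 := abs_nonneg l
  have h1 : (4 * |l|) ^ 2 < a ^ 2 := by
    apply pow_lt_pow_left₀ h (by positivity) (by norm_num)
  rw [mul_pow, sq_abs] at h1
  have h2 := sq_nonneg l
  simp only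
  omega

private theorem VTT_z2 (a l : ℤ) (h : |a| < 2 * l) : (nn (a, l) : ℤ) = 8 * l ^ 2 - a ^ 2 ∧ 0 < nn (a, l) := by
  unfold nn N8
  have h0 := abs_nonneg a
  have h1 : |a| ^ 2 < (2 * l) ^ 2 := by
    apply pow_lt_pow_left₀ h (by positivity) (by norm_num)
  rw [mul_pow, sq_abs] at h1
  have h2 := sq_nonneg l
  simp only
  omega

private theorem VTT_lm (m n : ℕ) (hm : 0 < m) (h : (m : ℤ) ≤ n) : Real.log (m : ℝ) ≤ Real.log (n : ℝ) := by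
  apply Real.log_le_log (by exact_mod_cast hm)
  exact_mod_cast h

private theorem VTT_lk (m y : ℕ) (hm : 0 < m) (h : m ≤ y) : |Real.log (m : ℝ)| ≤ Real.log (y : ℝ) := by
  rw [abs_of_nonneg (Real.log_natCast_nonneg m)]
  exact Real.log_le_log (by exact_mod_cast hm) (by exact_mod_cast h)

private def VTT_P1 (y : ℕ) (z : ℤ × ℤ) : Prop := (0 ≤ z.2 ∧ 4 * |z.2| < z.1) ∧ nn z ≤ y
private def VTT_P2 (y : ℕ) (z : ℤ × ℤ) : Prop := (z.2 < 0 ∧ 4 * |z.2| < z.1) ∧ nn z ≤ y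
private def VTT_P3 (y : ℕ) (z : ℤ × ℤ) : Prop := (0 ≤ z.1 ∧ |z.1| < 2 * z.2) ∧ nn z ≤ y
private def VTT_P4 (y : ℕ) (z : ℤ × ℤ) : Prop := (z.1 < 0 ∧ |z.1| < 2 * z.2) ∧ nn z ≤ y

private theorem VTT_dec (i : ℕ) (κ τ : ℝ) (y : ℕ) : Fyt i κ τ y = fun z =>
    (VTT_G κ yy 1 (VTT_P1 y) z * VTT_G τ (fun z => Real.log (nn z)) 1 (VTT_P1 y) z +
      VTT_G κ yy 1 (VTT_P2 y) z * VTT_G τ (fun z => Real.log (nn z)) 1 (VTT_P2 y) z) +
    (VTT_G κ yy ((-1) ^ i) (VTT_P3 y) z * VTT_G τ (fun z => Real.log (nn z)) 1 (VTT_P3 y) z +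
      VTT_G κ yy ((-1) ^ i) (VTT_P4 y) z * VTT_G τ (fun z => Real.log (nn z)) 1 (VTT_P4 y) z) := by
  funext z
  obtain ⟨a, l⟩ := z
  unfold Fyt Fy VTT_G VTT_P1 VTT_P2 VTT_P3 VTT_P4 CH.nit
  simp only
  by_cases hy : nn (a, l) ≤ y
  swap
  · simp [hy]
  by_cases h1 : 4 * |l| < a
  · have h2 : ¬ |a| < 2 * l := by
      have := abs_nonneg l
      have := le_abs_self a
      have := le_abs_self l
      omega
    have h3 : (N8 (a, l)).sign = 1 := by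
      rw [Int.sign_eq_one_iff_pos]
      unfold N8
      have h0 := abs_nonneg l
      have h1 : (4 * |l|) ^ 2 < a ^ 2 := by
        apply pow_lt_pow_left₀ h1 (by positivity) (by norm_num)
      rw [mul_pow, sq_abs] at h1
      have h2 := sq_nonneg l
      simp only
      omega
    rw [h3]
    by_cases hl : 0 ≤ l
    · have hl' : ¬ l < 0 := by omega
      simp [h1, h2, hl, hl', hy]
    · have hl' : l < 0 := by omega
      simp [h1, h2, hl, hl', hy]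
  · by_cases h2 : |a| < 2 * l
    · have h3 : (N8 (a, l)).sign = -1 := by
        rw [Int.sign_eq_neg_one_iff_neg]
        unfold N8
        have h0 := abs_nonneg a
        have h1 : |a| ^ 2 < (2 * l) ^ 2 := by
          apply pow_lt_pow_left₀ h2 (by positivity) (by norm_num)
        rw [mul_pow, sq_abs] at h1
        have h2 := sq_nonneg l
        simp only
        omega
      rw [h3]
      by_cases hl : 0 ≤ a
      · have hl' : ¬ a < 0 := by omega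
        simp [h1, h2, hl, hl', hy]
      · have hl' : a < 0 := by omega
        simp [h1, h2, hl, hl', hy]
    · simp [h1, h2]

theorem VTT (hTV2 : TV2_stmt) : VTT_stmt := by
  classical
  refine ⟨192, by norm_num, ?_⟩
  intro i κ τ y B
  rcases Nat.eq_zero_or_pos y with hy | hy
  · subst hy
    have h0 : Fyt i κ τ 0 = fun _ => 0 := by
      funext z
      obtain ⟨a, l⟩ := z
      unfold Fyt Fy
      rw [if_neg, zero_mul]
      rintro ⟨h1 | h1, h2⟩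
      · exact absurd (VTT_r1 a l 0 h1 h2).2.2 (by omega)
      · exact absurd (VTT_r2 a l 0 h1 h2).2.2 (by omega)
    rw [h0]
    unfold Va
    simp
  have hly : 0 ≤ Real.log (y : ℝ) := Real.log_natCast_nonneg y
  have hR : (2 * (Nat.sqrt (2 * y) : ℝ) + 1) ≤ 4 * √(y : ℝ) := by
    have h1 : (Nat.sqrt (2 * y) : ℝ) ^ 2 ≤ 2 * y := by
      have := Nat.sqrt_le' (2 * y)
      exact_mod_cast this
    have h2 : √(y : ℝ) ^ 2 = y := Real.sq_sqrt (by positivity)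
    have h3 : (1 : ℝ) ≤ √(y : ℝ) := by
      rw [Real.one_le_sqrt]; exact_mod_cast hy
    have h4 : (Nat.sqrt (2 * y) : ℝ) ≤ 3 / 2 * √(y : ℝ) := by
      apply le_of_sq_le_sq _ (by positivity)
      rw [mul_pow, h2]
      have : (0 : ℝ) ≤ y := by positivity
      nlinarith
    linarith
  have hb : 2 * (2 * (Nat.sqrt (2 * y) : ℝ) + 1) * (2 + 2 * 2 * |κ|) ≤ 32 * (1 + |κ|) * √(y : ℝ) := by
    have hk := abs_nonneg κ
    have hs := Real.sqrt_nonneg (y : ℝ)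
    have : 2 * (2 * (Nat.sqrt (2 * y) : ℝ) + 1) * (2 + 2 * 2 * |κ|) ≤
        2 * (4 * √(y : ℝ)) * (2 + 2 * 2 * |κ|) := by
      gcongr
    nlinarith [mul_nonneg hk hs]
  have hb' : 2 * (2 * (Nat.sqrt (2 * y) : ℝ) + 1) * (2 + 2 * Real.log y * |τ|) ≤
      16 * (1 + |τ| * Real.log y) * √(y : ℝ) := by
    have hk := abs_nonneg τ
    have hs := Real.sqrt_nonneg (y : ℝ)
    have hlk : 0 ≤ Real.log (y : ℝ) * |τ| := mul_nonneg hly hk
    have : 2 * (2 * (Nat.sqrt (2 * y) : ℝ) + 1) * (2 + 2 * Real.log y * |τ|) ≤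
        2 * (4 * √(y : ℝ)) * (2 + 2 * Real.log y * |τ|) := by
      have h5 : 0 ≤ 2 + 2 * Real.log (y : ℝ) * |τ| := by nlinarith
      exact mul_le_mul_of_nonneg_right (by linarith) h5
    refine this.trans (le_of_eq ?_)
    ring
  have hs : ‖(-1 : ℂ) ^ i‖ ≤ 1 := by simp
  have hs1 : ‖(1 : ℂ)‖ ≤ 1 := by simp
  have ra1 : ∀ l a b c : ℤ, a ≤ b → b ≤ c → VTT_P1 y (a, l) → VTT_P1 y (c, l) →
      VTT_P1 y (b, l) := by
    rintro l a b c hab hbc ⟨⟨h1, h2⟩, h3⟩ ⟨⟨h4, h5⟩, h6⟩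
    simp only at h1 h2 h4 h5
    unfold VTT_P1
    simp only
    have hlb : 4 * |l| < b := by omega
    rw [VTT_n1 _ _ _ h5] at h6
    rw [VTT_n1 _ _ _ hlb]
    refine ⟨⟨h1, hlb⟩, ?_⟩
    have := abs_nonneg l
    have : b ^ 2 ≤ c ^ 2 := by apply pow_le_pow_left₀ (by omega) hbc
    omega
  have ca1 : ∀ l a b c : ℤ, a ≤ b → b ≤ c → VTT_P1 y (l, a) → VTT_P1 y (l, c) →
      VTT_P1 y (l, b) := by
    rintro l a b c hab hbc ⟨⟨h1, h2⟩, h3⟩ ⟨⟨h4, h5⟩, h6⟩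
    simp only at h1 h2 h4 h5
    unfold VTT_P1
    simp only
    have hb : 0 ≤ b := by omega
    have hlb : 4 * |b| < l := by
      rw [abs_of_nonneg h4] at h5
      rw [abs_of_nonneg hb]
      omega
    rw [VTT_n1 _ _ _ h2] at h3
    rw [VTT_n1 _ _ _ hlb]
    refine ⟨⟨hb, hlb⟩, ?_⟩
    have : a ^ 2 ≤ b ^ 2 := by apply pow_le_pow_left₀ h1 hab
    omega
  have ra2 : ∀ l a b c : ℤ, a ≤ b → b ≤ c → VTT_P2 y (a, l) → VTT_P2 y (c, l) →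
      VTT_P2 y (b, l) := by
    rintro l a b c hab hbc ⟨⟨h1, h2⟩, h3⟩ ⟨⟨h4, h5⟩, h6⟩
    simp only at h1 h2 h4 h5
    unfold VTT_P2
    simp only
    have hlb : 4 * |l| < b := by omega
    rw [VTT_n1 _ _ _ h5] at h6
    rw [VTT_n1 _ _ _ hlb]
    refine ⟨⟨h1, hlb⟩, ?_⟩
    have := abs_nonneg l
    have : b ^ 2 ≤ c ^ 2 := by apply pow_le_pow_left₀ (by omega) hbc
    omega
  have ca2 : ∀ l a b c : ℤ, a ≤ b → b ≤ c → VTT_P2 y (l, a) → VTT_P2 y (l, c) →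
      VTT_P2 y (l, b) := by
    rintro l a b c hab hbc ⟨⟨h1, h2⟩, h3⟩ ⟨⟨h4, h5⟩, h6⟩
    simp only at h1 h2 h4 h5
    unfold VTT_P2
    simp only
    have hb : b < 0 := by omega
    have hlb : 4 * |b| < l := by
      rw [abs_of_neg h1] at h2
      rw [abs_of_neg hb]
      omega
    rw [VTT_n1 _ _ _ h5] at h6
    rw [VTT_n1 _ _ _ hlb]
    refine ⟨⟨hb, hlb⟩, ?_⟩
    have : c ^ 2 ≤ b ^ 2 := by nlinarith
    omega
  have ra3 : ∀ l a b c : ℤ, a ≤ b → b ≤ c → VTT_P3 y (a, l) → VTT_P3 y (c, l) →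
      VTT_P3 y (b, l) := by
    rintro l a b c hab hbc ⟨⟨h1, h2⟩, h3⟩ ⟨⟨h4, h5⟩, h6⟩
    simp only at h1 h2 h4 h5
    unfold VTT_P3
    simp only
    have hb : 0 ≤ b := by omega
    have hlb : |b| < 2 * l := by
      rw [abs_of_nonneg h4] at h5
      rw [abs_of_nonneg hb]
      omega
    rw [VTT_n2 _ _ _ h2] at h3
    rw [VTT_n2 _ _ _ hlb]
    refine ⟨⟨hb, hlb⟩, ?_⟩
    have : a ^ 2 ≤ b ^ 2 := by apply pow_le_pow_left₀ h1 hab
    omega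
  have ca3 : ∀ l a b c : ℤ, a ≤ b → b ≤ c → VTT_P3 y (l, a) → VTT_P3 y (l, c) →
      VTT_P3 y (l, b) := by
    rintro l a b c hab hbc ⟨⟨h1, h2⟩, h3⟩ ⟨⟨h4, h5⟩, h6⟩
    simp only at h1 h2 h4 h5
    unfold VTT_P3
    simp only
    have hlb : |l| < 2 * b := by omega
    rw [VTT_n2 _ _ _ h5] at h6
    rw [VTT_n2 _ _ _ hlb]
    refine ⟨⟨h1, hlb⟩, ?_⟩
    have := abs_nonneg l
    have : b ^ 2 ≤ c ^ 2 := by apply pow_le_pow_left₀ (by omega) hbc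
    omega
  have ra4 : ∀ l a b c : ℤ, a ≤ b → b ≤ c → VTT_P4 y (a, l) → VTT_P4 y (c, l) →
      VTT_P4 y (b, l) := by
    rintro l a b c hab hbc ⟨⟨h1, h2⟩, h3⟩ ⟨⟨h4, h5⟩, h6⟩
    simp only at h1 h2 h4 h5
    unfold VTT_P4
    simp only
    have hb : b < 0 := by omega
    have hlb : |b| < 2 * l := by
      rw [abs_of_neg h1] at h2
      rw [abs_of_neg hb]
      omega
    rw [VTT_n2 _ _ _ h5] at h6
    rw [VTT_n2 _ _ _ hlb]
    refine ⟨⟨hb, hlb⟩, ?_⟩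
    have : c ^ 2 ≤ b ^ 2 := by nlinarith
    omega
  have ca4 : ∀ l a b c : ℤ, a ≤ b → b ≤ c → VTT_P4 y (l, a) → VTT_P4 y (l, c) →
      VTT_P4 y (l, b) := by
    rintro l a b c hab hbc ⟨⟨h1, h2⟩, h3⟩ ⟨⟨h4, h5⟩, h6⟩
    simp only at h1 h2 h4 h5
    unfold VTT_P4
    simp only
    have hlb : |l| < 2 * b := by omega
    rw [VTT_n2 _ _ _ h5] at h6
    rw [VTT_n2 _ _ _ hlb]
    refine ⟨⟨h1, hlb⟩, ?_⟩
    have := abs_nonneg l
    have : b ^ 2 ≤ c ^ 2 := by apply pow_le_pow_left₀ (by omega) hbc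
    omega
  have t1 : Va (VTT_G κ yy 1 (VTT_P1 y)) B ≤ _ := hTV2 (VTT_P1 y) yy κ 2 1 (Nat.sqrt (2 * y)) B
    hs1 (by norm_num) (fun z hz => (VTT_y1 z.1 z.2 hz.1.2).2.2.2)
    (fun z hz => ⟨(VTT_r1 z.1 z.2 y hz.1.2 hz.2).1, (VTT_r1 z.1 z.2 y hz.1.2 hz.2).2.1⟩) ra1 ca1
    (by
      intro l
      right
      rintro a b hab ⟨⟨h1, h2⟩, h3⟩ ⟨⟨h4, h5⟩, h6⟩
      simp only at h1 h2 h4 h5
      apply VTT_m1 _ _ _ _ h5 h2
      nlinarith)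
    (by
      intro l
      left
      rintro a b hab ⟨⟨h1, h2⟩, h3⟩ ⟨⟨h4, h5⟩, h6⟩
      simp only at h1 h2 h4 h5
      apply VTT_m1 _ _ _ _ h2 h5
      have := abs_nonneg a
      nlinarith)
  have t2 : Va (VTT_G κ yy 1 (VTT_P2 y)) B ≤ _ := hTV2 (VTT_P2 y) yy κ 2 1 (Nat.sqrt (2 * y)) B
    hs1 (by norm_num) (fun z hz => (VTT_y1 z.1 z.2 hz.1.2).2.2.2)
    (fun z hz => ⟨(VTT_r1 z.1 z.2 y hz.1.2 hz.2).1, (VTT_r1 z.1 z.2 y hz.1.2 hz.2).2.1⟩) ra2 ca2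
    (by
      intro l
      left
      rintro a b hab ⟨⟨h1, h2⟩, h3⟩ ⟨⟨h4, h5⟩, h6⟩
      simp only at h1 h2 h4 h5
      apply VTT_m1 _ _ _ _ h2 h5
      nlinarith)
    (by
      intro l
      left
      rintro a b hab ⟨⟨h1, h2⟩, h3⟩ ⟨⟨h4, h5⟩, h6⟩
      simp only at h1 h2 h4 h5
      apply VTT_m1 _ _ _ _ h2 h5
      have := abs_nonneg a
      nlinarith)
  have t3 : Va (VTT_G κ yy ((-1 : ℂ) ^ i) (VTT_P3 y)) B ≤ _ := hTV2 (VTT_P3 y) yy κ 2 ((-1 : ℂ) ^ i)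
    (Nat.sqrt (2 * y)) B hs (by norm_num) (fun z hz => (VTT_y2 z.1 z.2 hz.1.2).2.2.2)
    (fun z hz => ⟨(VTT_r2 z.1 z.2 y hz.1.2 hz.2).1, (VTT_r2 z.1 z.2 y hz.1.2 hz.2).2.1⟩) ra3 ca3
    (by
      intro l
      left
      rintro a b hab ⟨⟨h1, h2⟩, h3⟩ ⟨⟨h4, h5⟩, h6⟩
      simp only at h1 h2 h4 h5
      apply VTT_m2 _ _ _ _ h2 h5
      have := abs_nonneg a
      nlinarith)
    (by
      intro l
      right
      rintro a b hab ⟨⟨h1, h2⟩, h3⟩ ⟨⟨h4, h5⟩, h6⟩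
      simp only at h1 h2 h4 h5
      apply VTT_m2 _ _ _ _ h5 h2
      nlinarith)
  have t4 : Va (VTT_G κ yy ((-1 : ℂ) ^ i) (VTT_P4 y)) B ≤ _ := hTV2 (VTT_P4 y) yy κ 2 ((-1 : ℂ) ^ i)
    (Nat.sqrt (2 * y)) B hs (by norm_num) (fun z hz => (VTT_y2 z.1 z.2 hz.1.2).2.2.2)
    (fun z hz => ⟨(VTT_r2 z.1 z.2 y hz.1.2 hz.2).1, (VTT_r2 z.1 z.2 y hz.1.2 hz.2).2.1⟩) ra4 ca4
    (by
      intro l
      left
      rintro a b hab ⟨⟨h1, h2⟩, h3⟩ ⟨⟨h4, h5⟩, h6⟩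
      simp only at h1 h2 h4 h5
      apply VTT_m2 _ _ _ _ h2 h5
      have := abs_nonneg a
      nlinarith)
    (by
      intro l
      left
      rintro a b hab ⟨⟨h1, h2⟩, h3⟩ ⟨⟨h4, h5⟩, h6⟩
      simp only at h1 h2 h4 h5
      apply VTT_m2 _ _ _ _ h2 h5
      nlinarith)
  have v1 : Va (VTT_G τ (fun z => Real.log (nn z)) 1 (VTT_P1 y)) B ≤ _ :=
    hTV2 (VTT_P1 y) (fun z => Real.log (nn z)) τ (Real.log y) 1 (Nat.sqrt (2 * y)) B
    hs1 hly (fun z hz => VTT_lk _ _ (VTT_z1 z.1 z.2 hz.1.2).2 hz.2)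
    (fun z hz => ⟨(VTT_r1 z.1 z.2 y hz.1.2 hz.2).1, (VTT_r1 z.1 z.2 y hz.1.2 hz.2).2.1⟩) ra1 ca1
    (by
      intro l
      left
      rintro a b hab ⟨⟨h1, h2⟩, h3⟩ ⟨⟨h4, h5⟩, h6⟩
      simp only at h1 h2 h4 h5
      obtain ⟨e1, e2⟩ := VTT_z1 _ _ h2
      obtain ⟨e3, e4⟩ := VTT_z1 _ _ h5
      refine VTT_lm _ _ e2 ?_
      rw [e1, e3]
      have := abs_nonneg l
      have : a ^ 2 ≤ b ^ 2 := by apply pow_le_pow_left₀ (by omega) hab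
      omega)
    (by
      intro l
      right
      rintro a b hab ⟨⟨h1, h2⟩, h3⟩ ⟨⟨h4, h5⟩, h6⟩
      simp only at h1 h2 h4 h5
      obtain ⟨e1, e2⟩ := VTT_z1 _ _ h2
      obtain ⟨e3, e4⟩ := VTT_z1 _ _ h5
      refine VTT_lm _ _ e4 ?_
      rw [e1, e3]
      have : a ^ 2 ≤ b ^ 2 := by apply pow_le_pow_left₀ h1 hab
      omega)
  have v2 : Va (VTT_G τ (fun z => Real.log (nn z)) 1 (VTT_P2 y)) B ≤ _ :=
    hTV2 (VTT_P2 y) (fun z => Real.log (nn z)) τ (Real.log y) 1 (Nat.sqrt (2 * y)) B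
    hs1 hly (fun z hz => VTT_lk _ _ (VTT_z1 z.1 z.2 hz.1.2).2 hz.2)
    (fun z hz => ⟨(VTT_r1 z.1 z.2 y hz.1.2 hz.2).1, (VTT_r1 z.1 z.2 y hz.1.2 hz.2).2.1⟩) ra2 ca2
    (by
      intro l
      left
      rintro a b hab ⟨⟨h1, h2⟩, h3⟩ ⟨⟨h4, h5⟩, h6⟩
      simp only at h1 h2 h4 h5
      obtain ⟨e1, e2⟩ := VTT_z1 _ _ h2
      obtain ⟨e3, e4⟩ := VTT_z1 _ _ h5
      refine VTT_lm _ _ e2 ?_
      rw [e1, e3]
      have := abs_nonneg l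
      have : a ^ 2 ≤ b ^ 2 := by apply pow_le_pow_left₀ (by omega) hab
      omega)
    (by
      intro l
      left
      rintro a b hab ⟨⟨h1, h2⟩, h3⟩ ⟨⟨h4, h5⟩, h6⟩
      simp only at h1 h2 h4 h5
      obtain ⟨e1, e2⟩ := VTT_z1 _ _ h2
      obtain ⟨e3, e4⟩ := VTT_z1 _ _ h5
      refine VTT_lm _ _ e2 ?_
      rw [e1, e3]
      have : b ^ 2 ≤ a ^ 2 := by nlinarith
      omega)
  have v3 : Va (VTT_G τ (fun z => Real.log (nn z)) 1 (VTT_P3 y)) B ≤ _ :=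
    hTV2 (VTT_P3 y) (fun z => Real.log (nn z)) τ (Real.log y) 1 (Nat.sqrt (2 * y)) B
    hs1 hly (fun z hz => VTT_lk _ _ (VTT_z2 z.1 z.2 hz.1.2).2 hz.2)
    (fun z hz => ⟨(VTT_r2 z.1 z.2 y hz.1.2 hz.2).1, (VTT_r2 z.1 z.2 y hz.1.2 hz.2).2.1⟩) ra3 ca3
    (by
      intro l
      right
      rintro a b hab ⟨⟨h1, h2⟩, h3⟩ ⟨⟨h4, h5⟩, h6⟩
      simp only at h1 h2 h4 h5
      obtain ⟨e1, e2⟩ := VTT_z2 _ _ h2
      obtain ⟨e3, e4⟩ := VTT_z2 _ _ h5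
      refine VTT_lm _ _ e4 ?_
      rw [e1, e3]
      have : a ^ 2 ≤ b ^ 2 := by apply pow_le_pow_left₀ h1 hab
      omega)
    (by
      intro l
      left
      rintro a b hab ⟨⟨h1, h2⟩, h3⟩ ⟨⟨h4, h5⟩, h6⟩
      simp only at h1 h2 h4 h5
      obtain ⟨e1, e2⟩ := VTT_z2 _ _ h2
      obtain ⟨e3, e4⟩ := VTT_z2 _ _ h5
      refine VTT_lm _ _ e2 ?_
      rw [e1, e3]
      have := abs_nonneg l
      have : a ^ 2 ≤ b ^ 2 := by apply pow_le_pow_left₀ (by omega) hab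
      omega)
  have v4 : Va (VTT_G τ (fun z => Real.log (nn z)) 1 (VTT_P4 y)) B ≤ _ :=
    hTV2 (VTT_P4 y) (fun z => Real.log (nn z)) τ (Real.log y) 1 (Nat.sqrt (2 * y)) B
    hs1 hly (fun z hz => VTT_lk _ _ (VTT_z2 z.1 z.2 hz.1.2).2 hz.2)
    (fun z hz => ⟨(VTT_r2 z.1 z.2 y hz.1.2 hz.2).1, (VTT_r2 z.1 z.2 y hz.1.2 hz.2).2.1⟩) ra4 ca4
    (by
      intro l
      left
      rintro a b hab ⟨⟨h1, h2⟩, h3⟩ ⟨⟨h4, h5⟩, h6⟩
      simp only at h1 h2 h4 h5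
      obtain ⟨e1, e2⟩ := VTT_z2 _ _ h2
      obtain ⟨e3, e4⟩ := VTT_z2 _ _ h5
      refine VTT_lm _ _ e2 ?_
      rw [e1, e3]
      have : b ^ 2 ≤ a ^ 2 := by nlinarith
      omega)
    (by
      intro l
      left
      rintro a b hab ⟨⟨h1, h2⟩, h3⟩ ⟨⟨h4, h5⟩, h6⟩
      simp only at h1 h2 h4 h5
      obtain ⟨e1, e2⟩ := VTT_z2 _ _ h2
      obtain ⟨e3, e4⟩ := VTT_z2 _ _ h5
      refine VTT_lm _ _ e2 ?_
      rw [e1, e3]
      have := abs_nonneg l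
      have : a ^ 2 ≤ b ^ 2 := by apply pow_le_pow_left₀ (by omega) hab
      omega)
  have w1 := VTT_prod _ _ (VTT_G1 κ yy 1 hs1 (VTT_P1 y))
    (VTT_G1 τ (fun z => Real.log (nn z)) 1 hs1 (VTT_P1 y)) B
  have w2 := VTT_prod _ _ (VTT_G1 κ yy 1 hs1 (VTT_P2 y))
    (VTT_G1 τ (fun z => Real.log (nn z)) 1 hs1 (VTT_P2 y)) B
  have w3 := VTT_prod _ _ (VTT_G1 κ yy ((-1 : ℂ) ^ i) hs (VTT_P3 y))
    (VTT_G1 τ (fun z => Real.log (nn z)) 1 hs1 (VTT_P3 y)) B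
  have w4 := VTT_prod _ _ (VTT_G1 κ yy ((-1 : ℂ) ^ i) hs (VTT_P4 y))
    (VTT_G1 τ (fun z => Real.log (nn z)) 1 hs1 (VTT_P4 y)) B
  rw [VTT_dec]
  refine (VTT_add _ _ B).trans ?_
  refine (add_le_add (VTT_add _ _ B) (VTT_add _ _ B)).trans ?_
  have x1 := w1.trans (add_le_add (t1.trans hb) (v1.trans hb'))
  have x2 := w2.trans (add_le_add (t2.trans hb) (v2.trans hb'))
  have x3 := w3.trans (add_le_add (t3.trans hb) (v3.trans hb'))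
  have x4 := w4.trans (add_le_add (t4.trans hb) (v4.trans hb'))
  refine (add_le_add (add_le_add x1 x2) (add_le_add x3 x4)).trans ?_
  have hk := abs_nonneg κ
  have ht := abs_nonneg τ
  have hsq := Real.sqrt_nonneg (y : ℝ)
  have hlk : 0 ≤ |τ| * Real.log (y : ℝ) := mul_nonneg ht hly
  have e : 192 * (1 + |κ| + |τ| * (1 + Real.log y)) * √(y : ℝ) =
      (32 * (1 + |κ|) * √(y : ℝ) + 16 * (1 + |τ| * Real.log y) * √(y : ℝ) +
        (32 * (1 + |κ|) * √(y : ℝ) + 16 * (1 + |τ| * Real.log y) * √(y : ℝ)) +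
        (32 * (1 + |κ|) * √(y : ℝ) + 16 * (1 + |τ| * Real.log y) * √(y : ℝ) +
          (32 * (1 + |κ|) * √(y : ℝ) + 16 * (1 + |τ| * Real.log y) * √(y : ℝ)))) +
      (64 * |κ| + 128 * (|τ| * Real.log y) + 192 * |τ|) * √(y : ℝ) := by ring
  rw [e]
  have hnn : 0 ≤ (64 * |κ| + 128 * (|τ| * Real.log y) + 192 * |τ|) * √(y : ℝ) :=
    mul_nonneg (by linarith) hsq
  linarith

end Pool.Agent.BP
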